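import Mathlib

/-!
# A Lusin set which is dominating by pairs, under the continuum hypothesis (helper461)
-/

set_option autoImplicit false

open Set Filter Topology Cardinal

namespace Pool.Agent.Y461.FU

/-- `x` extends the finite sequence `s`. -/
def Cyl (s : List ℕ) (x : ℕ → ℕ) : Prop := ∀ i (h : i < s.length), x i = s[i]

/-- a closed nowhere dense set given by the code `φ` -/
def Nd (φ : List ℕ → List ℕ) : Set (ℕ → ℕ) := {x | ∀ s, ¬ Cyl (s ++ φ s) x}

/-- codes -/
abbrev Code : Type := (List ℕ → List ℕ) × (ℕ → ℕ)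

lemma cyl_isOpen (s : List ℕ) : IsOpen {x | Cyl s x} := by
  have : {x | Cyl s x} = ⋂ i ∈ Finset.range s.length, {x : ℕ → ℕ | ∀ h : i < s.length, x i = s[i]} := by
    ext x
    simp only [Cyl, Set.mem_iInter, Finset.mem_range]
    exact ⟨fun h i _ h' => h i h', fun h i h' => h i h' h'⟩
  rw [this]
  refine isOpen_biInter_finset fun i hi => ?_
  have hi' : i < s.length := Finset.mem_range.mp hi
  have hc : Continuous fun x : ℕ → ℕ => x i := continuous_apply i
  have : {x : ℕ → ℕ | ∀ h : i < s.length, x i = s[i]} = (fun x : ℕ → ℕ => x i) ⁻¹' {s[i]} := by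
    ext x
    exact ⟨fun h => h hi', fun h _ => h⟩
  rw [this]
  exact (isOpen_discrete _).preimage hc

/-- the initial segment of length `m` -/
def ini (x : ℕ → ℕ) (m : ℕ) : List ℕ := (List.range m).map x

lemma ini_length (x : ℕ → ℕ) (m : ℕ) : (ini x m).length = m := by simp [ini]

lemma ini_get (x : ℕ → ℕ) (m i : ℕ) (h : i < (ini x m).length) : (ini x m)[i] = x i := by
  simp [ini]

lemma cyl_ini (x y : ℕ → ℕ) (m : ℕ) : Cyl (ini x m) y ↔ ∀ i < m, y i = x i := by
  constructor
  · intro h i hi
    have := h i (by rw [ini_length]; exact hi)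
    rwa [ini_get] at this
  · intro h i hi
    rw [ini_get]
    exact h i (by rwa [ini_length] at hi)

lemma pi_nhd {α : Type} [TopologicalSpace α] {U : Set (ℕ → α)} (hU : IsOpen U) {u : ℕ → α}
    (hu : u ∈ U) : ∃ m : ℕ, ∀ y : ℕ → α, (∀ i < m, y i = u i) → y ∈ U := by
  obtain ⟨I, w, h1, h2⟩ := isOpen_pi_iff.mp hU u hu
  refine ⟨I.sup id + 1, fun y hy => h2 fun i hi => ?_⟩
  rw [hy i (Nat.lt_succ_of_le (Finset.le_sup (f := id) hi))]
  exact (h1 i hi).2

/-- the Baire category argument -/
theorem pair {ι : Type} [Countable ι] (φ : ι → List ℕ → List ℕ) (h : ℕ → ℕ) :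
    ∃ x y : ℕ → ℕ, (∀ i, x ∉ Nd (φ i)) ∧ (∀ i, y ∉ Nd (φ i)) ∧ ∀ n, h n ≤ max (x n) (y n) := by
  let Q : Type := ℕ → Bool × ℕ × ℕ
  let xq : Q → (ℕ → ℕ) := fun q n => if (q n).1 then (q n).2.1 else h n + (q n).2.1
  let yq : Q → (ℕ → ℕ) := fun q n => if (q n).1 then h n + (q n).2.2 else (q n).2.2
  have hxq : Continuous xq := continuous_pi fun n =>
    (continuous_of_discreteTopology (f := fun p : Bool × ℕ × ℕ =>
      if p.1 then p.2.1 else h n + p.2.1)).comp (continuous_apply n)
  have hyq : Continuous yq := continuous_pi fun n =>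
    (continuous_of_discreteTopology (f := fun p : Bool × ℕ × ℕ =>
      if p.1 then h n + p.2.2 else p.2.2)).comp (continuous_apply n)
  let D : ι ⊕ ι → Set Q := Sum.elim (fun i => {q | ∃ s, Cyl (s ++ φ i s) (xq q)})
    (fun i => {q | ∃ s, Cyl (s ++ φ i s) (yq q)})
  have hDo : ∀ j, IsOpen (D j) := by
    rintro (i | i)
    · have : D (Sum.inl i) = ⋃ s, xq ⁻¹' {x | Cyl (s ++ φ i s) x} := by
        ext q; simp [D]
      rw [this]
      exact isOpen_iUnion fun s => (cyl_isOpen _).preimage hxq
    · have : D (Sum.inr i) = ⋃ s, yq ⁻¹' {x | Cyl (s ++ φ i s) x} := by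
        ext q; simp [D]
      rw [this]
      exact isOpen_iUnion fun s => (cyl_isOpen _).preimage hyq
  have hDd : ∀ j, Dense (D j) := by
    rintro (i | i)
    · rw [dense_iff_inter_open]
      rintro U hU ⟨q, hq⟩
      obtain ⟨m, hm⟩ := pi_nhd hU hq
      let s := ini (xq q) m
      let t := s ++ φ i s
      let q' : Q := fun n => if n < m then q n else (true, t.getD n 0, 0)
      refine ⟨q', hm q' fun n hn => if_pos hn, s, ?_⟩
      intro n hn
      by_cases hnm : n < m
      · have h1 : xq q' n = xq q n := by simp only [xq, q', if_pos hnm]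
        rw [h1, List.getElem_append_left (by rw [ini_length]; exact hnm), ini_get]
      · have h1 : xq q' n = t.getD n 0 := by simp only [xq, q', if_neg hnm, if_true]
        rw [h1]
        exact List.getD_eq_getElem _ _ hn
    · rw [dense_iff_inter_open]
      rintro U hU ⟨q, hq⟩
      obtain ⟨m, hm⟩ := pi_nhd hU hq
      let s := ini (yq q) m
      let t := s ++ φ i s
      let q' : Q := fun n => if n < m then q n else (false, 0, t.getD n 0)
      refine ⟨q', hm q' fun n hn => if_pos hn, s, ?_⟩
      intro n hn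
      by_cases hnm : n < m
      · have h1 : yq q' n = yq q n := by simp only [yq, q', if_pos hnm]
        rw [h1, List.getElem_append_left (by rw [ini_length]; exact hnm), ini_get]
      · have h1 : yq q' n = t.getD n 0 := by
          simp only [yq, q', if_neg hnm, Bool.false_eq_true, if_false]
        rw [h1]
        exact List.getD_eq_getElem _ _ hn
  have hne : Nonempty Q := ⟨fun _ => (true, 0, 0)⟩
  obtain ⟨q, hq⟩ := (dense_iInter_of_isOpen hDo hDd).nonempty
  rw [mem_iInter] at hq
  refine ⟨xq q, yq q, ?_, ?_, ?_⟩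
  · intro i hi
    obtain ⟨s, hs⟩ := hq (Sum.inl i)
    exact hi s hs
  · intro i hi
    obtain ⟨s, hs⟩ := hq (Sum.inr i)
    exact hi s hs
  · intro n
    by_cases hb : (q n).1 = true
    · refine le_max_of_le_right ?_
      show h n ≤ if (q n).1 then h n + (q n).2.2 else (q n).2.2
      rw [if_pos hb]
      exact Nat.le_add_right _ _
    · refine le_max_of_le_left ?_
      show h n ≤ if (q n).1 then (q n).2.1 else h n + (q n).2.1
      rw [if_neg hb]
      exact Nat.le_add_right _ _

/-- the complement of a dense open set is contained in a set with a code -/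
theorem code_of_dense {G : Set (ℕ → ℕ)} (hG : IsOpen G) (hd : Dense G) :
    ∃ φ, ∀ x, x ∉ G → x ∈ Nd φ := by
  have key : ∀ s : List ℕ, ∃ t : List ℕ, ∀ x, Cyl (s ++ t) x → x ∈ G := by
    intro s
    obtain ⟨z, hzs, hzG⟩ := hd.inter_open_nonempty {x | Cyl s x} (cyl_isOpen s)
      ⟨fun n => s.getD n 0, fun i hi => List.getD_eq_getElem _ _ hi⟩
    obtain ⟨m, hm⟩ := pi_nhd hG hzG
    refine ⟨(List.range m).map (fun i => z (s.length + i)), fun x hx => hm x fun i hi => ?_⟩
    by_cases his : i < s.length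
    · have h1 := hx i (by rw [List.length_append]; omega)
      rw [List.getElem_append_left his] at h1
      rw [h1, hzs i his]
    · have hlen : i < (s ++ (List.range m).map (fun i => z (s.length + i))).length := by
        simp only [List.length_append, List.length_map, List.length_range]; omega
      have h1 := hx i hlen
      rw [List.getElem_append_right (not_lt.mp his)] at h1
      simp only [List.getElem_map, List.getElem_range] at h1
      rw [h1]
      congr 1
      omega
  choose φ hφ using key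
  exact ⟨φ, fun x hx s hs => hx (hφ s x hs)⟩

theorem mk_code : #Code = continuum := by
  simp [Code]

/-- Under the continuum hypothesis there is a Lusin set such that every function is bounded by the
maximum of two of its elements. -/
theorem lusin (hCH : continuum.{0} = aleph 1) : ∃ L : Set (ℕ → ℕ), L.Nonempty ∧
    (∀ φ, {x | x ∈ L ∧ x ∈ Nd φ}.Countable) ∧
    ∀ h : ℕ → ℕ, ∃ x ∈ L, ∃ y ∈ L, ∀ n, h n ≤ max (x n) (y n) := by
  classical
  obtain ⟨r, wo, hr⟩ := Cardinal.exists_ord_eq Code
  have hcount : ∀ a : Code, {b | r b a}.Countable := by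
    intro a
    have h1 : #{b // r b a} < #Code := Cardinal.card_typein_lt (r := r) a hr
    rw [mk_code, hCH] at h1
    have h2 : #{b // r b a} ≤ ℵ₀ := by
      rw [← Cardinal.succ_aleph0] at h1
      exact Order.lt_succ_iff.mp h1
    exact Cardinal.le_aleph0_iff_set_countable.mp h2
  have hpair : ∀ a : Code, ∃ x y : ℕ → ℕ, (∀ b, (r b a ∨ b = a) → x ∉ Nd b.1) ∧
      (∀ b, (r b a ∨ b = a) → y ∉ Nd b.1) ∧ ∀ n, a.2 n ≤ max (x n) (y n) := by
    intro a
    have hc : ({b | r b a} ∪ {a}).Countable := (hcount a).union (countable_singleton a)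
    have : Countable ↥({b | r b a} ∪ {a}) := hc.to_subtype
    obtain ⟨x, y, h1, h2, h3⟩ := pair (fun i : ↥({b | r b a} ∪ {a}) => i.1.1) a.2
    exact ⟨x, y, fun b hb => h1 ⟨b, hb⟩, fun b hb => h2 ⟨b, hb⟩, h3⟩
  choose x y hx hy hxy using hpair
  refine ⟨range x ∪ range y, ⟨x (fun _ => [], fun _ => 0), Or.inl ⟨_, rfl⟩⟩, ?_, ?_⟩
  · intro φ
    have hc := hcount (φ, fun _ => 0)
    refine ((hc.image x).union (hc.image y)).mono ?_
    have key : ∀ a, ¬ (r (φ, fun _ => 0) a ∨ (φ, fun _ => 0) = a) → r a (φ, fun _ => 0) := by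
      intro a ha
      rcases trichotomous_of r a (φ, fun _ => 0) with h | h | h
      · exact h
      · exact absurd (Or.inr h.symm) ha
      · exact absurd (Or.inl h) ha
    rintro z ⟨⟨a, rfl⟩ | ⟨a, rfl⟩, hz⟩
    · left
      exact ⟨a, key a fun h => hx a _ h hz, rfl⟩
    · right
      exact ⟨a, key a fun h => hy a _ h hz, rfl⟩
  · intro h
    exact ⟨x (fun _ => [], h), Or.inl ⟨_, rfl⟩, y (fun _ => [], h), Or.inr ⟨_, rfl⟩,
      hxy (fun _ => [], h)⟩

end Pool.Agent.Y461.FU
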