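import Pool.Agent.Y461.FU.Lusin

/-!
# The sequential fan in the function space of a Lusin set (helper461)
-/

set_option autoImplicit false

open Set Filter Topology

namespace Pool.Agent.Y461.FU

/-- A Lusin set has the Menger property. -/
theorem menger (L : Set (ℕ → ℕ)) (hne : L.Nonempty)
    (hL : ∀ φ, {x | x ∈ L ∧ x ∈ Nd φ}.Countable)
    (U : ℕ → Set (Set L)) (hU : ∀ n, ∀ u ∈ U n, IsOpen u) (hcov : ∀ n, ⋃₀ U n = univ) :
    ∃ V : ℕ → Set (Set L), (∀ n, V n ⊆ U n ∧ (V n).Finite) ∧ (⋃ n, ⋃₀ V n) = univ := by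
  classical
  have hneL : Nonempty L := hne.to_subtype
  obtain ⟨D, hDc, hDd⟩ := TopologicalSpace.exists_countable_dense L
  obtain ⟨d, hd⟩ := hDc.exists_eq_range hDd.nonempty
  have hch : ∀ n (x : L), ∃ u ∈ U n, x ∈ u := by
    intro n x
    have : x ∈ ⋃₀ U n := by rw [hcov n]; trivial
    exact this
  choose u hu hxu using hch
  let W : Set L := ⋃ n, u n (d n)
  have hWo : IsOpen W := isOpen_iUnion fun n => hU n _ (hu n (d n))
  obtain ⟨O, hO, hOW⟩ := isOpen_induced_iff.mp hWo
  obtain ⟨φ, hφ⟩ := code_of_dense (G := O ∪ (closure L)ᶜ) (hO.union isClosed_closure.isOpen_compl)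
    (by
      rw [dense_iff_inter_open]
      intro O' hO' hne'
      by_cases h : (O' ∩ closure L).Nonempty
      · obtain ⟨z, hz1, hz2⟩ := h
        obtain ⟨w, hw1, hw2⟩ := mem_closure_iff.mp hz2 O' hO' hz1
        obtain ⟨v, hv1, hv2⟩ := hDd.inter_open_nonempty (Subtype.val ⁻¹' O')
          (hO'.preimage continuous_subtype_val) ⟨⟨w, hw2⟩, hw1⟩
        rw [hd] at hv2
        obtain ⟨n, rfl⟩ := hv2
        refine ⟨(d n : ℕ → ℕ), hv1, Or.inl ?_⟩
        have : d n ∈ Subtype.val ⁻¹' O := by
          rw [hOW]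
          exact mem_iUnion.mpr ⟨n, hxu n (d n)⟩
        exact this
      · obtain ⟨z, hz⟩ := hne'
        exact ⟨z, hz, Or.inr fun hz' => h ⟨z, hz, hz'⟩⟩)
  have hR : {x : L | x ∉ W}.Countable := by
    refine (Set.Countable.preimage_of_injOn (hL φ) (Subtype.val_injective.injOn
      (s := Subtype.val ⁻¹' _))).mono ?_
    intro x hx
    refine ⟨x.2, hφ _ ?_⟩
    rintro (h | h)
    · refine hx ?_
      have : x ∈ Subtype.val ⁻¹' O := h
      rwa [hOW] at this
    · exact h (subset_closure x.2)
  obtain ⟨x0⟩ := hneL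
  obtain ⟨ρ, hρ⟩ := (hR.union (countable_singleton x0)).exists_eq_range ⟨x0, Or.inr rfl⟩
  refine ⟨fun n => {u n (d n), u n (ρ n)}, fun n => ⟨?_, Set.toFinite _⟩, ?_⟩
  · rintro v (rfl | rfl)
    · exact hu n _
    · exact hu n _
  · rw [eq_univ_iff_forall]
    intro x
    by_cases hx : x ∈ W
    · obtain ⟨n, hn⟩ := mem_iUnion.mp hx
      exact mem_iUnion.mpr ⟨n, u n (d n), Or.inl rfl, hn⟩
    · have : x ∈ range ρ := by rw [← hρ]; exact Or.inl hx
      obtain ⟨n, rfl⟩ := this
      exact mem_iUnion.mpr ⟨n, u n (ρ n), Or.inr rfl, hxu n (ρ n)⟩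

section
variable (L : Set (ℕ → ℕ))

/-- distinct isolated values -/
noncomputable def cst (n k : ℕ) : ℝ := 1 + 1 / ((Nat.pair n k : ℝ) + 1)

lemma cst_gt (n k : ℕ) : 1 < cst n k := by
  have : (0 : ℝ) < 1 / ((Nat.pair n k : ℝ) + 1) := by positivity
  unfold cst; linarith

/-- the values of the functions -/
noncomputable def val (x : ℕ → ℕ) (n k : ℕ) : ℝ := if k ≤ x n then cst n k else 0

/-- the functions -/
noncomputable def fn (n k : ℕ) : {g : L → ℝ // Continuous g} :=
  ⟨fun x => val x n k, by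
    have h1 : Continuous fun x : L => (x : ℕ → ℕ) n :=
      (continuous_apply n).comp continuous_subtype_val
    exact (continuous_of_discreteTopology (f := fun m : ℕ => if k ≤ m then cst n k else 0)).comp h1⟩

/-- the zero function -/
noncomputable def zr : {g : L → ℝ // Continuous g} := ⟨fun _ => 0, continuous_const⟩

/-- the map on the sum of convergent sequences -/
noncomputable def F0 (p : ℕ × OnePoint ℕ) : {g : L → ℝ // Continuous g} :=
  Option.elim p.2 (zr L) (fn L p.1)

lemma F0_inf (n : ℕ) : F0 L (n, OnePoint.infty) = zr L := rfl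

lemma F0_coe (n k : ℕ) : F0 L (n, (k : OnePoint ℕ)) = fn L n k := rfl

lemma F0_cont : Continuous (F0 L) := by
  rw [continuous_prod_of_discrete_left]
  intro n
  refine Continuous.subtype_mk (f := fun q : OnePoint ℕ => (F0 L (n, q)).1) ?_ _
  refine continuous_pi fun x => ?_
  rw [OnePoint.continuous_iff_from_nat]
  show Tendsto (fun k : ℕ => val x n k) atTop (𝓝 0)
  refine tendsto_const_nhds.congr' ?_
  filter_upwards [eventually_gt_atTop ((x : ℕ → ℕ) n)] with k hk
  exact (if_neg (not_le.mpr hk)).symm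

/-- the equivalence relation which identifies the limit points -/
abbrev Rel : ℕ × OnePoint ℕ → ℕ × OnePoint ℕ → Prop :=
  fun p q => p = q ∨ (p.2 = OnePoint.infty ∧ q.2 = OnePoint.infty)

/-- the map on the sequential fan -/
noncomputable def F : Quot Rel → {g : L → ℝ // Continuous g} :=
  Quot.lift (F0 L) (by
    rintro ⟨n, p⟩ ⟨m, q⟩ (h | ⟨h1, h2⟩)
    · rw [h]
    · dsimp only at h1 h2
      subst h1
      subst h2
      rfl)

lemma F_cont : Continuous (F L) := continuous_quot_lift _ (F0_cont L)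

lemma cst_far (n k : ℕ) : ∃ ε > 0, ε < 1 ∧ ∀ n' k', |cst n' k' - cst n k| < ε → n' = n ∧ k' = k := by
  set a : ℝ := (Nat.pair n k : ℝ) + 1 with ha
  have hapos : 0 < a := by positivity
  refine ⟨1 / (a * (a + 1)), by positivity, ?_, ?_⟩
  · rw [div_lt_one (by positivity)]
    have : (1 : ℝ) ≤ a := by rw [ha]; have : (0:ℝ) ≤ (Nat.pair n k : ℝ) := by positivity
                             linarith
    nlinarith
  · intro n' k' h
    set b : ℝ := (Nat.pair n' k' : ℝ) + 1 with hb
    have hbpos : 0 < b := by positivity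
    by_contra hcon
    have hne : Nat.pair n' k' ≠ Nat.pair n k := by
      intro h'
      rw [Nat.pair_eq_pair] at h'
      exact hcon h'
    have hval : cst n' k' - cst n k = 1 / b - 1 / a := by unfold cst; ring
    rw [hval] at h
    rcases lt_or_gt_of_ne hne with h' | h'
    · have h1 : b + 1 ≤ a := by
        rw [ha, hb]
        have : ((Nat.pair n' k' : ℕ) : ℝ) + 1 ≤ ((Nat.pair n k : ℕ) : ℝ) := by exact_mod_cast h'
        linarith
      have h2 : 1 / a ≤ 1 / (b + 1) := one_div_le_one_div_of_le (by positivity) h1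
      have h3 : 1 / (a * (a + 1)) ≤ 1 / (b * (b + 1)) :=
        one_div_le_one_div_of_le (by positivity) (by nlinarith)
      have h4 : 1 / b - 1 / (b + 1) = 1 / (b * (b + 1)) := by field_simp; ring
      have h5 := le_abs_self (1 / b - 1 / a)
      linarith
    · have h1 : a + 1 ≤ b := by
        rw [ha, hb]
        have : ((Nat.pair n k : ℕ) : ℝ) + 1 ≤ ((Nat.pair n' k' : ℕ) : ℝ) := by exact_mod_cast h'
        linarith
      have h2 : 1 / b ≤ 1 / (a + 1) := one_div_le_one_div_of_le (by positivity) h1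
      have h4 : 1 / a - 1 / (a + 1) = 1 / (a * (a + 1)) := by field_simp; ring
      have h5 := neg_abs_le (1 / b - 1 / a)
      linarith

lemma Quot_cases (q : Quot Rel) : (∃ n, q = Quot.mk _ (n, OnePoint.infty)) ∨
    ∃ n k : ℕ, q = Quot.mk _ (n, (k : OnePoint ℕ)) := by
  induction q using Quot.ind with
  | mk p =>
    obtain ⟨n, p⟩ := p
    induction p using OnePoint.rec with
    | infty => exact Or.inl ⟨n, rfl⟩
    | coe k => exact Or.inr ⟨n, k, rfl⟩

theorem embed (hdom : ∀ h : ℕ → ℕ, ∃ x ∈ L, ∃ y ∈ L, ∀ n, h n ≤ max (x n) (y n)) :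
    IsEmbedding (F L) := by
  classical
  have hval : ∀ n k (x : L), (fn L n k).1 x = val x n k := fun _ _ _ => rfl
  -- isolating neighbourhoods
  have hiso : ∀ n k : ℕ, ∃ W : Set {g : L → ℝ // Continuous g}, IsOpen W ∧ fn L n k ∈ W ∧
      zr L ∉ W ∧ ∀ n' k', fn L n' k' ∈ W → n' = n ∧ k' = k := by
    intro n k
    obtain ⟨x, hx, y, hy, hxy⟩ := hdom (fun _ => k)
    obtain ⟨z, hz, hkz⟩ : ∃ z ∈ L, k ≤ z n := by
      rcases le_max_iff.mp (hxy n) with h | h
      · exact ⟨x, hx, h⟩
      · exact ⟨y, hy, h⟩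
    obtain ⟨ε, hε, hε1, hfar⟩ := cst_far n k
    refine ⟨{g | |g.1 ⟨z, hz⟩ - cst n k| < ε}, ?_, ?_, ?_, ?_⟩
    · have hc : Continuous fun g : {g : L → ℝ // Continuous g} => g.1 ⟨z, hz⟩ :=
        (continuous_apply _).comp continuous_subtype_val
      exact isOpen_lt (hc.sub continuous_const).abs continuous_const
    · show |val z n k - cst n k| < ε
      rw [val, if_pos hkz, sub_self, abs_zero]
      exact hε
    · intro h
      have h' : |0 - cst n k| < ε := h
      rw [zero_sub, abs_neg, abs_of_pos (by linarith [cst_gt n k])] at h'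
      linarith [cst_gt n k]
    · intro n' k' h
      have h' : |val z n' k' - cst n k| < ε := h
      by_cases hk : k' ≤ z n'
      · rw [val, if_pos hk] at h'
        exact hfar n' k' h'
      · rw [val, if_neg hk, zero_sub, abs_neg, abs_of_pos (by linarith [cst_gt n k])] at h'
        linarith [cst_gt n k]
  choose W hWo hW1 hW2 hW3 using hiso
  have hinf : ∀ n m : ℕ, (Quot.mk Rel (n, OnePoint.infty)) = Quot.mk Rel (m, OnePoint.infty) :=
    fun n m => Quot.sound (Or.inr ⟨rfl, rfl⟩)
  have hFi : ∀ n, F L (Quot.mk Rel (n, OnePoint.infty)) = zr L := fun n => rfl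
  have hFc : ∀ n k : ℕ, F L (Quot.mk Rel (n, (k : OnePoint ℕ))) = fn L n k := fun n k => rfl
  refine ⟨⟨?_⟩, ?_⟩
  · refine le_antisymm (F_cont L).le_induced ?_
    intro U hU
    have hpre : IsOpen (Quot.mk Rel ⁻¹' U) := hU
    let W1 : Set {g : L → ℝ // Continuous g} :=
      ⋃ (n : ℕ) (k : ℕ) (_ : Quot.mk Rel (n, (k : OnePoint ℕ)) ∈ U), W n k
    have hW1o : IsOpen W1 := isOpen_iUnion fun n => isOpen_iUnion fun k => isOpen_iUnion fun _ =>
      hWo n k
    have hW1c : ∀ n k : ℕ, fn L n k ∈ W1 ↔ Quot.mk Rel (n, (k : OnePoint ℕ)) ∈ U := by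
      intro n k
      constructor
      · intro h
        simp only [W1, mem_iUnion] at h
        obtain ⟨n', k', h', h''⟩ := h
        obtain ⟨rfl, rfl⟩ := hW3 n' k' n k h''
        exact h'
      · intro h
        simp only [W1, mem_iUnion]
        exact ⟨n, k, h, hW1 n k⟩
    have hW1z : zr L ∉ W1 := by
      intro h
      simp only [W1, mem_iUnion] at h
      obtain ⟨n', k', h', h''⟩ := h
      exact hW2 n' k' h''
    by_cases hz : Quot.mk Rel (0, OnePoint.infty) ∈ U
    · have hh : ∀ n : ℕ, ∃ m : ℕ, ∀ k, m < k → Quot.mk Rel (n, (k : OnePoint ℕ)) ∈ U := by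
        intro n
        have ht : Tendsto (fun k : ℕ => ((n, (k : OnePoint ℕ)) : ℕ × OnePoint ℕ)) atTop
            (𝓝 (n, OnePoint.infty)) := by
          have h1 : Tendsto (fun k : ℕ => (k : OnePoint ℕ)) atTop (𝓝 OnePoint.infty) :=
            (OnePoint.continuous_iff_from_nat (fun q : OnePoint ℕ => q)).mp continuous_id
          exact tendsto_const_nhds.prodMk_nhds h1
        have hmem : Quot.mk Rel ⁻¹' U ∈ 𝓝 ((n, OnePoint.infty) : ℕ × OnePoint ℕ) := by
          refine hpre.mem_nhds ?_
          show Quot.mk Rel (n, OnePoint.infty) ∈ U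
          rw [hinf n 0]
          exact hz
        obtain ⟨m, hm⟩ := eventually_atTop.mp (ht.eventually hmem)
        exact ⟨m, fun k hk => hm k hk.le⟩
      choose h hh using hh
      obtain ⟨x, hx, y, hy, hxy⟩ := hdom h
      let W2 : Set {g : L → ℝ // Continuous g} := {g | |g.1 ⟨x, hx⟩| < 1 ∧ |g.1 ⟨y, hy⟩| < 1}
      have hW2o : IsOpen W2 := by
        have hc : ∀ z : L, Continuous fun g : {g : L → ℝ // Continuous g} => g.1 z := fun z =>
          (continuous_apply _).comp continuous_subtype_val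
        exact (isOpen_lt (hc _).abs continuous_const).inter (isOpen_lt (hc _).abs continuous_const)
      have hW2c : ∀ n k, fn L n k ∈ W2 → Quot.mk Rel (n, (k : OnePoint ℕ)) ∈ U := by
        rintro n k ⟨h1, h2⟩
        refine hh n k ?_
        by_contra hcon
        have hle : k ≤ max (x n) (y n) := (not_lt.mp hcon).trans (hxy n)
        have hc := cst_gt n k
        rcases le_max_iff.mp hle with h3 | h3
        · have h1' : |val x n k| < 1 := h1
          rw [val, if_pos h3, abs_of_pos (by linarith)] at h1'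
          linarith
        · have h2' : |val y n k| < 1 := h2
          rw [val, if_pos h3, abs_of_pos (by linarith)] at h2'
          linarith
      have hW2z : zr L ∈ W2 := by
        constructor <;>
        · show |(0 : ℝ)| < 1
          simp
      refine isOpen_induced_iff.mpr ⟨W1 ∪ W2, hW1o.union hW2o, ?_⟩
      ext q
      rcases Quot_cases q with ⟨n, rfl⟩ | ⟨n, k, rfl⟩
      · constructor
        · intro _
          rw [hinf n 0]
          exact hz
        · intro _
          exact Or.inr (by rw [hFi]; exact hW2z)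
      · constructor
        · rintro (h1 | h1)
          · rw [hFc] at h1
            exact (hW1c n k).1 h1
          · rw [hFc] at h1
            exact hW2c n k h1
        · intro h1
          exact Or.inl (by rw [hFc]; exact (hW1c n k).2 h1)
    · refine isOpen_induced_iff.mpr ⟨W1, hW1o, ?_⟩
      ext q
      rcases Quot_cases q with ⟨n, rfl⟩ | ⟨n, k, rfl⟩
      · constructor
        · intro h1
          have h1' : F L (Quot.mk Rel (n, OnePoint.infty)) ∈ W1 := h1
          rw [hFi] at h1'
          exact absurd h1' hW1z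
        · intro h1
          rw [hinf n 0] at h1
          exact absurd h1 hz
      · constructor
        · intro h1
          have h1' : F L (Quot.mk Rel (n, (k : OnePoint ℕ))) ∈ W1 := h1
          rw [hFc] at h1'
          exact (hW1c n k).1 h1'
        · intro h1
          show F L (Quot.mk Rel (n, (k : OnePoint ℕ))) ∈ W1
          rw [hFc]
          exact (hW1c n k).2 h1
  · intro q q' hqq
    rcases Quot_cases q with ⟨n, rfl⟩ | ⟨n, k, rfl⟩
    · rcases Quot_cases q' with ⟨m, rfl⟩ | ⟨m, l, rfl⟩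
      · exact hinf n m
      · rw [hFi, hFc] at hqq
        exact absurd (hqq ▸ hW1 m l) (hW2 m l)
    · rcases Quot_cases q' with ⟨m, rfl⟩ | ⟨m, l, rfl⟩
      · rw [hFi, hFc] at hqq
        exact absurd (hqq ▸ hW1 n k) (hW2 n k)
      · rw [hFc, hFc] at hqq
        obtain ⟨rfl, rfl⟩ := hW3 n k m l (hqq ▸ hW1 n k)
        rfl

end

end Pool.Agent.Y461.FU
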